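import Mathlib

set_option autoImplicit false

namespace Pool.Agent.H.MP_5f6599_gt

open Set Topology Filter

universe u v w

theorem key {I : Type u} {X : I → Type v} [∀ i, TopologicalSpace (X i)] {D : Set (∀ i, X i)}
    (hD : ∀ J : Set I, J.Countable → ∀ x : ∀ i, X i, ∃ d ∈ D, ∀ i ∈ J, d i = x i)
    [ParacompactSpace D] {A : Type w} (u : A → Set D) (uo : ∀ a, IsOpen (u a))
    (uc : ⋃ a, u a = univ) (K : Set I)
    (hK : ∀ y : ℕ → ∀ i, X i, ∃ l : Filter ℕ, l.NeBot ∧ l ≤ atTop ∧ ∃ x : ∀ i, X i,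
      ∀ i ∈ K, Tendsto (fun n => y n i) l (𝓝 (x i)))
    (P : Finset I → (∀ i, X i) → Prop) (q0 : ∀ i, X i) (h0 : P ∅ q0)
    (hP : ∀ F q F', P F q → F ⊆ F' → ∃ q', P F' q' ∧ ∀ i ∈ F, q' i = q i) :
    ∃ F q, P F q ∧ ∃ T : Finset A, ∀ z : D, (∀ i ∈ F, i ∉ K → z.1 i = q i) → ∃ a ∈ T, z ∈ u a := by
  classical
  by_contra h
  push Not at h
  obtain ⟨v, h1, h2, h3, h4⟩ := precise_refinement u uo uc
  have step : ∀ s : {s : Finset I × (∀ i, X i) × Finset A // P s.1 s.2.1},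
      ∃ (t : {s : Finset I × (∀ i, X i) × Finset A // P s.1 s.2.1}) (y : D) (a : A),
      a ∉ s.1.2.2 ∧ t.1.2.2 = insert a s.1.2.2 ∧ s.1.1 ⊆ t.1.1 ∧
      (∀ i ∈ s.1.1, t.1.2.1 i = s.1.2.1 i) ∧ (∀ i ∈ s.1.1, i ∉ K → y.1 i = s.1.2.1 i) ∧
      ∀ z : D, (∀ i ∈ t.1.1, z.1 i = y.1 i) → z ∈ v a := by
    rintro ⟨⟨F, q, T⟩, hs⟩
    obtain ⟨y, h5, h6⟩ := h F q hs T
    obtain ⟨a, ha⟩ := mem_iUnion.1 (h2 ▸ mem_univ y)
    obtain ⟨V, hV, e⟩ := isOpen_induced_iff.1 (h1 a)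
    obtain ⟨G, w, h7, h8⟩ := isOpen_pi_iff.1 hV y.1 (by rwa [← e] at ha)
    obtain ⟨q', h9, h10⟩ := hP F q (F ∪ G) hs Finset.subset_union_left
    refine ⟨⟨(F ∪ G, q', insert a T), h9⟩, y, a, fun h => h6 a h (h4 a ha), rfl,
      Finset.subset_union_left, h10, h5, fun z hz => e ▸ h8 fun i hi => ?_⟩
    rw [hz i (Finset.mem_union_right _ hi)]
    exact (h7 i hi).2
  choose nx y a b1 b2 b3 b4 b5 b6 using step
  let s : ℕ → _ := fun n => nx^[n] ⟨(∅, q0, ∅), h0⟩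
  have e : ∀ n, s (n + 1) = nx (s n) := fun n => Function.iterate_succ_apply' _ _ _
  have c1 : ∀ m n, m ≤ n → (s m).1.2.2 ⊆ (s n).1.2.2 ∧
      ∀ i ∈ (s m).1.1, i ∈ (s n).1.1 ∧ (s n).1.2.1 i = (s m).1.2.1 i := by
    intro m n hn
    induction n, hn using Nat.le_induction with
    | base => exact ⟨Subset.rfl, fun i hi => ⟨hi, rfl⟩⟩
    | succ n _ ih =>
      rw [e, b2]
      exact ⟨ih.1.trans (Finset.subset_insert _ _), fun i hi =>
        ⟨b3 _ (ih.2 i hi).1, (b4 _ i (ih.2 i hi).1).trans (ih.2 i hi).2⟩⟩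
  have c2 : Function.Injective fun n => a (s n) := by
    refine Function.Injective.of_lt_imp_ne fun m n hn h => b1 (s n) ((c1 (m + 1) n hn).1 ?_)
    rw [e, b2, ← h]
    exact Finset.mem_insert_self _ _
  have c3 : ∀ i, ∃ r, ∀ n, i ∈ (s n).1.1 → r = (s n).1.2.1 i := by
    intro i
    by_cases h : ∃ m, i ∈ (s m).1.1
    · obtain ⟨m, hm⟩ := h
      exact ⟨(s m).1.2.1 i, fun n hn => (((c1 m (max m n) (le_max_left _ _)).2 i hm).2.symm.trans
        ((c1 n (max m n) (le_max_right _ _)).2 i hn).2)⟩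
    · exact ⟨q0 i, fun n hn => absurd ⟨n, hn⟩ h⟩
  choose r hr using c3
  obtain ⟨l, hl, c3, x, hx⟩ := hK fun n => (y (s n)).1
  let M : Set I := ⋃ n, ((s n).1.1 : Set I)
  have hM : M.Countable := countable_iUnion fun n => Finset.countable_toSet _
  obtain ⟨d, c4, c5⟩ := hD M hM (K.piecewise x r)
  obtain ⟨W, c6, c7⟩ := h3 ⟨d, c4⟩
  obtain ⟨V, c8, c9⟩ := (mem_nhds_subtype _ _ _).1 c6
  obtain ⟨G, w, d1, d2⟩ := isOpen_pi_iff.1 isOpen_interior d (mem_interior_iff_mem_nhds.2 c8)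
  choose z d3 d4 using fun n => hD (M ∪ G) (hM.union G.countable_toSet) (M.piecewise (y (s n)).1 d)
  have d5 : ∀ᶠ n in l, ∀ i ∈ G, z n i ∈ w i := by
    refine (eventually_all_finset G).2 fun i hi => ?_
    simp only [d4 _ i (Or.inr hi)]
    by_cases h5 : i ∈ M
    · simp only [piecewise_eq_of_mem _ _ _ h5]
      have d6 := (d1 i hi).2
      rw [c5 i h5] at d6
      by_cases h6 : i ∈ K
      · rw [piecewise_eq_of_mem _ _ _ h6] at d6
        exact hx i h6 ((d1 i hi).1.mem_nhds d6)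
      · rw [piecewise_eq_of_notMem _ _ _ h6] at d6
        obtain ⟨m, hm⟩ := mem_iUnion.1 h5
        refine c3 ((eventually_ge_atTop m).mono fun n hn => ?_)
        have := ((c1 m n hn).2 i hm).1
        change _ ∈ w i
        rwa [b5 _ i this h6, ← hr i n this]
    · simp only [piecewise_eq_of_notMem _ _ _ h5]
      exact Eventually.of_forall fun _ => (d1 i hi).2
  have d6 : ∀ᶠ n in l, a (s n) ∉ {i | (v i ∩ W).Nonempty} := by
    refine c3 ?_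
    rw [← Nat.cofinite_eq_atTop]
    exact (c7.preimage c2.injOn).compl_mem_cofinite
  obtain ⟨n, d7, d8⟩ := (d5.and d6).exists
  refine d8 ⟨⟨z n, d3 n⟩, b6 _ _ fun i hi => ?_, c9 (interior_subset (s := V) (d2 d7))⟩
  have : i ∈ M := mem_iUnion.2 ⟨n + 1, by rw [e]; exact hi⟩
  change z n i = _
  rw [d4 n i (Or.inl this), piecewise_eq_of_mem _ _ _ this]

end Pool.Agent.H.MP_5f6599_gt
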